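import Mathlib
import Pool.Agent.H699_PA.Basic

set_option autoImplicit false

/-!
# There is no universal countable projective algebra

More precisely, no projective algebra of plane sets with fewer than continuum many members contains
copies of all the projective algebras generated by one plane set (all of which are countable).
-/

namespace Pool.Agent.Results.MP_3db952_lc.NoUniversalAlgebra

open Set Cardinal Pool.Agent.H699_PA

/-- **No projective algebra of cardinality less than the continuum, in particular no countable one,
is universal for the countable projective algebras**: some countable projective algebra, generated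
by a single plane set, is not isomorphic to any of its subalgebras. -/
theorem result (U : Set (Set (ℝ × ℝ))) (_hU : IsProjectiveAlgebra U) (hc : #U < 𝔠) :
    ∃ F : Set (Set (ℝ × ℝ)), IsProjectiveAlgebra F ∧ F.Countable ∧
      (∃ S : Set (ℝ × ℝ), F = generated {S}) ∧
      ∀ V : Set (Set (ℝ × ℝ)), V ⊆ U → IsProjectiveAlgebra V → ¬ Isomorphic F V := by
  by_contra hcon
  push Not at hcon
  have hgen : ∀ A : Set ℕ, generated (Set.range fun _ : Fin 1 => enc A) = generated {enc A} :=
    fun A => by rw [Set.range_const]
  have h1 : ∀ A : Set ℕ, ∃ φ : Set (ℝ × ℝ) → Set (ℝ × ℝ), ∃ V ⊆ U,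
      IsIso (generated (Set.range fun _ : Fin 1 => enc A)) V φ := by
    intro A
    obtain ⟨V, hV, _, φ, hφ⟩ := hcon (generated (Set.range fun _ : Fin 1 => enc A))
      (generated_isProjectiveAlgebra _)
      (by rw [generated_eq_range]; exact Set.countable_range _) ⟨enc A, hgen A⟩
    exact ⟨φ, V, hV, hφ⟩
  choose φ V hV hφ using h1
  let g : Set ℕ → U := fun A => ⟨φ A (enc A), hV A ((hφ A).bij.mapsTo
    (subset_generated _ (Set.mem_range_self (0 : Fin 1))))⟩
  have hg : Function.Injective g := by
    intro A B hAB
    exact enc_inj (0 : Fin 1) (hφ A) (hφ B) (congrArg Subtype.val hAB)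
  have h5 := mk_le_of_injective hg
  rw [mk_set, mk_nat, two_power_aleph0] at h5
  exact absurd h5 (not_le.2 hc)

end Pool.Agent.Results.MP_3db952_lc.NoUniversalAlgebra
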